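import Pool.Agent.H200C.Stm3

set_option autoImplicit false

/-! Job CH32 (NefA) of project CH (helper200). -/

namespace Pool.Agent.Q92.CH

open Finset Pool.Agent Pool.Agent.H200C Pool.Agent.H200P Pool.Agent.H200W Pool.Agent.H932R3 Pool.Agent.W609.CR

/-- the rounded class satisfies the hypotheses of the main theorem -/
theorem round_two (hEA : ExpA) (hTwo : Two) {n s : ℕ} (c m h : ℝ) (x : Fin n → ℝ) (p : Fin n)
    (A : Finset (Fin n)) (e : ℕ) (hm : 0 < m) (hh : 0 ≤ h) (he : 1 ≤ e) (hs : 1 ≤ s) (hp : p ∉ A)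
    (hx : ∀ i, 0 ≤ x i) (hxm : ∀ i, i ≠ p → i ∉ A → x i ≤ m)
    (hcard : ((univ \ insert p A).image x).card ≤ s)
    (H1 : x p + e * h + 2 ^ 30 * e * m ≤ c)
    (H2 : ∀ i ∈ A, x p + e * h + (x i - h) + 2 ^ 30 * e * m ≤ c)
    (H3 : e * h + ∑ i ∈ A, max (x i - h) 0 +
      2 ^ 33 * m * (e + (A.filter fun i => h < x i ∧ x i ≤ h + 2 ^ 28 * m).card) ≤ c)
    (H4 : ∑ i ∈ A, x i + 2 ^ 33 * m * (e : ℝ) ^ 2 *
      (1 + (A.filter fun i => 0 < x i ∧ x i ≤ 2 ^ 28 * m).card) ≤ e * c)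
    (H5 : 2 ^ 29 * s * m ^ 2 ≤ ∑ i ∈ univ \ insert p A, x i ^ 2)
    (N : ℕ) (hN : 1 ≤ N) (N1 : 4 ≤ (N : ℝ) * m) (N2 : (n : ℝ) ≤ N * m) (N3 : ∑ i, x i ≤ N * m ^ 2)
    (k : ℕ) (hk : 1 ≤ k) :
    GenExp (k * ⌈(N : ℝ) * c⌉₊) (fun i => k * ⌊(N : ℝ) * x i⌋₊) := by
  have hN0 : (1 : ℝ) ≤ N := by exact_mod_cast hN
  have hk0 : (1 : ℝ) ≤ k := by exact_mod_cast hk
  have hNp : (0 : ℝ) < N := by linarith
  have hkp : (0 : ℝ) < k := by linarith
  have he0 : (1 : ℝ) ≤ e := by exact_mod_cast he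
  have hs0 : (1 : ℝ) ≤ s := by exact_mod_cast hs
  have hkN : (0 : ℝ) < k * N := by positivity
  have hd : (N : ℝ) * c ≤ ⌈(N : ℝ) * c⌉₊ := Nat.le_ceil _
  have hv : ∀ i, ((⌊(N : ℝ) * x i⌋₊ : ℕ) : ℝ) ≤ N * x i := fun i =>
    Nat.floor_le (mul_nonneg hNp.le (hx i))
  have hv' : ∀ i, (N : ℝ) * x i < ((⌊(N : ℝ) * x i⌋₊ : ℕ) : ℝ) + 1 := fun i =>
    Nat.lt_floor_add_one _
  have hη : ((⌊(N : ℝ) * h⌋₊ : ℕ) : ℝ) ≤ N * h := Nat.floor_le (mul_nonneg hNp.le hh)
  have hη' : (N : ℝ) * h < ((⌊(N : ℝ) * h⌋₊ : ℕ) : ℝ) + 1 := Nat.lt_floor_add_one _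
  have hμ : (N : ℝ) * m ≤ ((⌈(N : ℝ) * m⌉₊ : ℕ) : ℝ) := Nat.le_ceil _
  have hμ' : ((⌈(N : ℝ) * m⌉₊ : ℕ) : ℝ) ≤ N * m + 1 := (Nat.ceil_lt_add_one (by positivity)).le
  have hkd : (k : ℝ) * (N * c) ≤ (k : ℝ) * (⌈(N : ℝ) * c⌉₊ : ℕ) := mul_le_mul_of_nonneg_left hd hkp.le
  set d := ⌈(N : ℝ) * c⌉₊ with hdd
  set μ := ⌈(N : ℝ) * m⌉₊ with hμd
  set η := ⌊(N : ℝ) * h⌋₊ with hηd
  set v : Fin n → ℕ := fun i => ⌊(N : ℝ) * x i⌋₊ with hvd
  have hvi : ∀ i, ⌊(N : ℝ) * x i⌋₊ = v i := fun i => rfl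
  simp only [hvi] at hv hv' ⊢
  have hkμ : (k : ℝ) * μ + 1 ≤ 2 * (k * N * m) := by
    have : (k : ℝ) * μ ≤ k * (N * m + 1) := mul_le_mul_of_nonneg_left hμ' hkp.le
    nlinarith
  have hμ1 : 1 ≤ μ := by
    have : (1 : ℝ) ≤ μ := by linarith
    exact_mod_cast this
  have hkv : ∀ i, (k : ℝ) * v i ≤ k * N * x i := by
    intro i
    have := mul_le_mul_of_nonneg_left (hv i) hkp.le
    linarith
  have hkη : (e : ℝ) * (k * η) ≤ k * N * (e * h) := by
    have := mul_le_mul_of_nonneg_left hη (by positivity : (0 : ℝ) ≤ e * k)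
    linarith
  -- the sets of indices
  have hset1 : (A.filter fun i => k * η < k * v i ∧ k * v i ≤ k * η + 2 ^ 26 * (k * μ + 1)) ⊆
      A.filter fun i => h < x i ∧ x i ≤ h + 2 ^ 28 * m := by
    intro i hi
    rw [mem_filter] at hi ⊢
    obtain ⟨hiA, h1, h2⟩ := hi
    refine ⟨hiA, ?_, ?_⟩
    · have h3 : η < v i := Nat.lt_of_mul_lt_mul_left h1
      have h4 : ((η + 1 : ℕ) : ℝ) ≤ v i := by exact_mod_cast h3
      push_cast at h4
      have h5 := hv i
      have h6 : (N : ℝ) * h < N * x i := by linarith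
      exact lt_of_mul_lt_mul_left h6 hNp.le
    · have h3 : ((k * v i : ℕ) : ℝ) ≤ ((k * η + 2 ^ 26 * (k * μ + 1) : ℕ) : ℝ) := by exact_mod_cast h2
      push_cast at h3
      have h4 : (k : ℝ) * v i ≤ k * (η + 2 ^ 26 * (μ + 1)) := by nlinarith
      have h5 : (v i : ℝ) ≤ η + 2 ^ 26 * (μ + 1) := le_of_mul_le_mul_left h4 hkp
      have h6 := hv' i
      have h7 : (N : ℝ) * x i ≤ N * (h + 2 ^ 28 * m) := by nlinarith
      exact le_of_mul_le_mul_left h7 hNp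
  have hset2 : (A.filter fun i => 0 < k * v i ∧ k * v i ≤ 2 ^ 26 * (k * μ + 1)) ⊆
      A.filter fun i => 0 < x i ∧ x i ≤ 2 ^ 28 * m := by
    intro i hi
    rw [mem_filter] at hi ⊢
    obtain ⟨hiA, h1, h2⟩ := hi
    refine ⟨hiA, ?_, ?_⟩
    · have h3 : 0 < v i := Nat.pos_of_mul_pos_left h1
      have h4 : (1 : ℝ) ≤ v i := by exact_mod_cast h3
      have h5 := hv i
      have h6 : (0 : ℝ) < N * x i := by linarith
      exact pos_of_mul_pos_right h6 hNp.le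
    · have h3 : ((k * v i : ℕ) : ℝ) ≤ ((2 ^ 26 * (k * μ + 1) : ℕ) : ℝ) := by exact_mod_cast h2
      push_cast at h3
      have h4 : (k : ℝ) * v i ≤ k * (2 ^ 26 * (μ + 1)) := by nlinarith
      have h5 : (v i : ℝ) ≤ 2 ^ 26 * (μ + 1) := le_of_mul_le_mul_left h4 hkp
      have h6 := hv' i
      have h7 : (N : ℝ) * x i ≤ N * (2 ^ 28 * m) := by nlinarith
      exact le_of_mul_le_mul_left h7 hNp
  have hc1 := card_le_card hset1
  have hc2 := card_le_card hset2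
  set C1' := (A.filter fun i => k * η < k * v i ∧ k * v i ≤ k * η + 2 ^ 26 * (k * μ + 1)).card
  set C2' := (A.filter fun i => 0 < k * v i ∧ k * v i ≤ 2 ^ 26 * (k * μ + 1)).card
  set C1 := (A.filter fun i => h < x i ∧ x i ≤ h + 2 ^ 28 * m).card
  set C2 := (A.filter fun i => 0 < x i ∧ x i ≤ 2 ^ 28 * m).card
  have hc1' : (C1' : ℝ) ≤ C1 := by exact_mod_cast hc1
  have hc2' : (C2' : ℝ) ≤ C2 := by exact_mod_cast hc2
  apply hEA
  apply hTwo (e := e) (h := k * η) (μ := k * μ) (s := s) (p := p) (A := A) hp he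
  · exact Nat.one_le_iff_ne_zero.2 (Nat.mul_ne_zero (by omega) (by omega))
  · intro i hi hiA
    apply Nat.mul_le_mul_left
    have h1 : (v i : ℝ) ≤ μ := by
      have h2 := mul_le_mul_of_nonneg_left (hxm i hi hiA) hNp.le
      have h3 := hv i
      linarith
    exact_mod_cast h1
  · refine le_trans ?_ hcard
    have hsub : (univ \ insert p A).image (fun i => k * v i) ⊆
        ((univ \ insert p A).image x).image (fun t => k * ⌊(N : ℝ) * t⌋₊) := by
      intro y hy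
      rw [Finset.mem_image] at hy
      obtain ⟨i, hi, rfl⟩ := hy
      rw [Finset.mem_image]
      exact ⟨x i, Finset.mem_image_of_mem _ hi, rfl⟩
    exact (Finset.card_le_card hsub).trans Finset.card_image_le
  · -- T1
    have h1 : ((k * v p + e * (k * η) + 2 ^ 27 * (k * μ + 1) * e : ℕ) : ℝ) ≤ ((k * d : ℕ) : ℝ) := by
      push_cast
      have h2 := hkv p
      have h3 : 2 ^ 27 * ((k : ℝ) * μ + 1) * e ≤ 2 ^ 27 * (2 * (k * N * m)) * e := by
        apply mul_le_mul_of_nonneg_right _ (by positivity)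
        exact mul_le_mul_of_nonneg_left hkμ (by positivity)
      have h4 := mul_le_mul_of_nonneg_left H1 hkN.le
      have h5 : 0 ≤ (k : ℝ) * N * (e * m) := by positivity
      nlinarith
    exact_mod_cast h1
  · -- T2
    intro i hi
    have h1 : ((k * v p + e * (k * η) + (k * v i - k * η) + 2 ^ 27 * (k * μ + 1) * e : ℕ) : ℝ) ≤
        ((k * d : ℕ) : ℝ) := by
      have h2 := hkv p
      have h3 : 2 ^ 27 * ((k : ℝ) * μ + 1) * e ≤ 2 ^ 27 * (2 * (k * N * m)) * e := by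
        apply mul_le_mul_of_nonneg_right _ (by positivity)
        exact mul_le_mul_of_nonneg_left hkμ (by positivity)
      have h5 : 0 ≤ (k : ℝ) * N * (e * m) := by positivity
      rcases le_total (k * η) (k * v i) with h6 | h6
      · push_cast [Nat.cast_sub h6]
        have h4 := mul_le_mul_of_nonneg_left (H2 i hi) hkN.le
        have h7 := hkv i
        have h8 : (k : ℝ) * (N * h) ≤ k * (η + 1) := mul_le_mul_of_nonneg_left hη'.le hkp.le
        have h9 : (k : ℝ) ≤ k * N * (e * m) := by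
          have : (1 : ℝ) ≤ N * (e * m) := by nlinarith
          have := mul_le_mul_of_nonneg_left this hkp.le
          linarith
        nlinarith
      · rw [Nat.sub_eq_zero_of_le h6]
        push_cast
        have h4 := mul_le_mul_of_nonneg_left H1 hkN.le
        nlinarith
    exact_mod_cast h1
  · -- T3
    have h1 : ((e * (k * η) + ∑ i ∈ A, (k * v i - k * η) + 2 ^ 31 * (k * μ + 1) * (e + C1') : ℕ) : ℝ) ≤
        ((k * d : ℕ) : ℝ) := by
      have h2 : ∀ i ∈ A, ((k * v i - k * η : ℕ) : ℝ) ≤ k * N * max (x i - h) 0 + k := by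
        intro i _
        have hmax : 0 ≤ max (x i - h) 0 := le_max_right _ _
        rcases le_total (k * η) (k * v i) with h6 | h6
        · rw [Nat.cast_sub h6]
          push_cast
          have h7 := hkv i
          have h8 : (k : ℝ) * (N * h) ≤ k * (η + 1) := mul_le_mul_of_nonneg_left hη'.le hkp.le
          have h9 : (k : ℝ) * N * (x i - h) ≤ k * N * max (x i - h) 0 :=
            mul_le_mul_of_nonneg_left (le_max_left _ _) hkN.le
          nlinarith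
        · rw [Nat.sub_eq_zero_of_le h6]
          push_cast
          positivity
      have h3 := sum_le_sum h2
      rw [sum_add_distrib, ← mul_sum, sum_const, nsmul_eq_mul] at h3
      have h4 : (A.card : ℝ) ≤ n := by
        have := card_le_univ A
        rw [Fintype.card_fin] at this
        exact_mod_cast this
      push_cast at h3 ⊢
      have h5 : 2 ^ 31 * ((k : ℝ) * μ + 1) * (e + C1') ≤ 2 ^ 31 * (2 * (k * N * m)) * (e + C1) := by
        apply mul_le_mul _ (by linarith) (add_nonneg (Nat.cast_nonneg _) (Nat.cast_nonneg _)) (by positivity)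
        exact mul_le_mul_of_nonneg_left hkμ (by positivity)
      have h6 := mul_le_mul_of_nonneg_left H3 hkN.le
      have h7 : (A.card : ℝ) * k ≤ k * N * m := by
        have : (A.card : ℝ) * k ≤ (N * m) * k := mul_le_mul_of_nonneg_right (h4.trans N2) hkp.le
        linarith
      have h8 : (k : ℝ) * N * m ≤ k * N * m * (e + C1) := by
        have : (1 : ℝ) ≤ e + C1 := by
          have : (0 : ℝ) ≤ C1 := Nat.cast_nonneg _
          linarith
        have := mul_le_mul_of_nonneg_left this (by positivity : (0 : ℝ) ≤ k * N * m)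
        linarith
      nlinarith
    exact_mod_cast h1
  · -- T4
    have h1 : ((∑ i ∈ A, k * v i + 2 ^ 31 * (k * μ + 1) * e ^ 2 * (1 + C2') : ℕ) : ℝ) ≤ ((e * (k * d) : ℕ) : ℝ) := by
      push_cast
      have h2 : ∑ i ∈ A, (k : ℝ) * v i ≤ k * N * ∑ i ∈ A, x i := by
        rw [mul_sum]
        exact sum_le_sum fun i _ => hkv i
      have h5 : 2 ^ 31 * ((k : ℝ) * μ + 1) * (e : ℝ) ^ 2 * (1 + C2') ≤
          2 ^ 31 * (2 * (k * N * m)) * (e : ℝ) ^ 2 * (1 + C2) := by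
        apply mul_le_mul _ (by linarith) (add_nonneg zero_le_one (Nat.cast_nonneg _)) (by positivity)
        apply mul_le_mul_of_nonneg_right _ (by positivity)
        exact mul_le_mul_of_nonneg_left hkμ (by positivity)
      have h6 := mul_le_mul_of_nonneg_left H4 hkN.le
      have h7 : 0 ≤ (k : ℝ) * N * (m * (e : ℝ) ^ 2 * (1 + C2)) :=
        mul_nonneg hkN.le (mul_nonneg (by positivity) (add_nonneg zero_le_one (Nat.cast_nonneg _)))
      have h8 : (e : ℝ) * (k * (N * c)) ≤ e * (k * d) := mul_le_mul_of_nonneg_left hkd (by positivity)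
      nlinarith
    exact_mod_cast h1
  · -- T5
    left
    have h1 : ((2 ^ 28 * s * (k * μ) ^ 2 : ℕ) : ℝ) ≤ ((∑ i ∈ univ \ insert p A, (k * v i) ^ 2 : ℕ) : ℝ) := by
      push_cast
      have e3 : ∀ i, (N : ℝ) ^ 2 * x i ^ 2 - 2 * N * x i ≤ (v i : ℝ) ^ 2 := by
        intro i
        have f1 := hv' i
        have f2 : 0 ≤ (N : ℝ) * x i := mul_nonneg hNp.le (hx i)
        rcases le_or_gt 1 ((N : ℝ) * x i) with f3 | f3
        · have f4 : ((N : ℝ) * x i - 1) ^ 2 ≤ (v i : ℝ) ^ 2 :=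
            pow_le_pow_left₀ (by linarith) (by linarith) 2
          nlinarith
        · have f4 : (0 : ℝ) ≤ (v i : ℝ) ^ 2 := by positivity
          nlinarith
      have e4 := Finset.sum_le_sum (s := univ \ insert p A) fun i _ => e3 i
      rw [Finset.sum_sub_distrib, ← Finset.mul_sum, ← Finset.mul_sum] at e4
      have e5 : ∑ i ∈ univ \ insert p A, x i ≤ ∑ i, x i :=
        Finset.sum_le_sum_of_subset_of_nonneg (Finset.subset_univ _) fun i _ _ => hx i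
      have e6 : ∑ i ∈ univ \ insert p A, ((k : ℝ) * v i) ^ 2 =
          (k : ℝ) ^ 2 * ∑ i ∈ univ \ insert p A, (v i : ℝ) ^ 2 := by
        rw [Finset.mul_sum]
        apply Finset.sum_congr rfl
        intro i _
        ring
      rw [e6]
      have e7 : 2 ^ 28 * (s : ℝ) * (μ : ℝ) ^ 2 ≤ ∑ i ∈ univ \ insert p A, (v i : ℝ) ^ 2 := by
        refine le_trans ?_ e4
        have g1 : (μ : ℝ) ^ 2 ≤ (N * m + 1) ^ 2 := pow_le_pow_left₀ (Nat.cast_nonneg _) hμ' 2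
        have g2 : ((N : ℝ) * m + 1) ^ 2 ≤ 25 / 16 * (N * m) ^ 2 := by nlinarith
        have g3 := mul_le_mul_of_nonneg_left H5 (by positivity : (0 : ℝ) ≤ (N : ℝ) ^ 2)
        have g4 : 2 * (N : ℝ) * ∑ i ∈ univ \ insert p A, x i ≤ 2 * N * (N * m ^ 2) :=
          mul_le_mul_of_nonneg_left (e5.trans N3) (by positivity)
        have g5 : (2 : ℝ) ^ 28 * s * (μ : ℝ) ^ 2 ≤ 2 ^ 28 * s * (25 / 16 * (N * m) ^ 2) :=
          mul_le_mul_of_nonneg_left (g1.trans g2) (by positivity)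
        have g6 : (N * m : ℝ) ^ 2 ≤ s * (N * m) ^ 2 := by
          have := mul_le_mul_of_nonneg_right hs0 (by positivity : (0 : ℝ) ≤ (N * m : ℝ) ^ 2)
          linarith
        have g7 : (0 : ℝ) ≤ (N * m : ℝ) ^ 2 := by positivity
        nlinarith
      have e9 := mul_le_mul_of_nonneg_left e7 (by positivity : (0 : ℝ) ≤ (k : ℝ) ^ 2)
      refine le_trans (le_of_eq ?_) e9
      ring
    exact_mod_cast h1

theorem nefA : S_NefA := by
  intro hEA hTwo hNE n s P hP c m h x p A e hm hh he hs hp hx hxm hcard H1 H2 H3 H4 H5 hsq G e' u hG hGh hvan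
  have he0 : (1 : ℝ) ≤ e := by exact_mod_cast he
  have hc : 0 < c := by
    have h1 := hx p
    have h2 : 0 ≤ (e : ℝ) * h := by positivity
    have h3 : 0 < 2 ^ 30 * (e : ℝ) * m := by positivity
    linarith
  obtain ⟨N1, hN1⟩ := exists_nat_ge (4 / m)
  obtain ⟨N2, hN2⟩ := exists_nat_ge ((n : ℝ) / m)
  obtain ⟨N3, hN3⟩ := exists_nat_ge ((∑ i, x i) / m ^ 2)
  rw [div_le_iff₀ hm] at hN1 hN2
  rw [div_le_iff₀ (by positivity)] at hN3
  have key : ∀ N : ℕ, N1 ≤ N → N2 ≤ N → N3 ≤ N → 1 ≤ N →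
      (N : ℝ) * (∑ i, x i * (u i : ℝ) - c * e') ≤ e' + ∑ i, (u i : ℝ) := by
    intro N h1 h2 h2b h3
    have h1' : (N1 : ℝ) ≤ N := by exact_mod_cast h1
    have h2' : (N2 : ℝ) ≤ N := by exact_mod_cast h2
    have h2b' : (N3 : ℝ) ≤ N := by exact_mod_cast h2b
    have hNp : (0 : ℝ) < N := by exact_mod_cast h3
    have hd : (N : ℝ) * c ≤ ⌈(N : ℝ) * c⌉₊ := Nat.le_ceil _
    have hd' : ((⌈(N : ℝ) * c⌉₊ : ℕ) : ℝ) ≤ N * c + 1 := (Nat.ceil_lt_add_one (by positivity)).le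
    have hv : ∀ i, ((⌊(N : ℝ) * x i⌋₊ : ℕ) : ℝ) ≤ N * x i := fun i =>
      Nat.floor_le (mul_nonneg hNp.le (hx i))
    have hv' : ∀ i, (N : ℝ) * x i < ((⌊(N : ℝ) * x i⌋₊ : ℕ) : ℝ) + 1 := fun i =>
      Nat.lt_floor_add_one _
    have hsq' : ∑ i, ⌊(N : ℝ) * x i⌋₊ ^ 2 ≤ ⌈(N : ℝ) * c⌉₊ ^ 2 := by
      have : ((∑ i, ⌊(N : ℝ) * x i⌋₊ ^ 2 : ℕ) : ℝ) ≤ ((⌈(N : ℝ) * c⌉₊ ^ 2 : ℕ) : ℝ) := by
        push_cast
        have g1 : ∑ i, ((⌊(N : ℝ) * x i⌋₊ : ℕ) : ℝ) ^ 2 ≤ ∑ i, (N * x i) ^ 2 :=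
          Finset.sum_le_sum fun i _ => pow_le_pow_left₀ (Nat.cast_nonneg _) (hv i) 2
        have g2 : ∑ i, ((N : ℝ) * x i) ^ 2 = (N : ℝ) ^ 2 * ∑ i, x i ^ 2 := by
          rw [Finset.mul_sum]
          exact Finset.sum_congr rfl fun i _ => by ring
        have g3 : (N : ℝ) ^ 2 * ∑ i, x i ^ 2 ≤ (N : ℝ) ^ 2 * c ^ 2 :=
          mul_le_mul_of_nonneg_left hsq (by positivity)
        have g4 : ((N : ℝ) * c) ^ 2 ≤ ((⌈(N : ℝ) * c⌉₊ : ℕ) : ℝ) ^ 2 :=
          pow_le_pow_left₀ (by positivity) hd 2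
        nlinarith
      exact_mod_cast this
    have hres := hNE (P := P) (k0 := 1) hsq' (fun k hk =>
      round_two hEA hTwo c m h x p A e hm hh he hs hp hx hxm hcard H1 H2 H3 H4 H5 N h3
        (hN1.trans (mul_le_mul_of_nonneg_right h1' hm.le)) (hN2.trans (mul_le_mul_of_nonneg_right h2' hm.le))
        (hN3.trans (mul_le_mul_of_nonneg_right h2b' (by positivity))) k hk hP) G e' u hG hGh hvan
    have hres' : ∑ i, ((⌊(N : ℝ) * x i⌋₊ : ℕ) : ℝ) * (u i : ℝ) ≤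
        ((⌈(N : ℝ) * c⌉₊ : ℕ) : ℝ) * e' := by exact_mod_cast hres
    have g1 : ∑ i, ((N : ℝ) * x i - 1) * (u i : ℝ) ≤
        ∑ i, ((⌊(N : ℝ) * x i⌋₊ : ℕ) : ℝ) * (u i : ℝ) :=
      Finset.sum_le_sum fun i _ => mul_le_mul_of_nonneg_right (by linarith [hv' i])
        (Nat.cast_nonneg _)
    have g2 : ∑ i, ((N : ℝ) * x i - 1) * (u i : ℝ) =
        N * ∑ i, x i * (u i : ℝ) - ∑ i, (u i : ℝ) := by
      rw [Finset.mul_sum, ← Finset.sum_sub_distrib]
      exact Finset.sum_congr rfl fun i _ => by ring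
    have g3 : ((⌈(N : ℝ) * c⌉₊ : ℕ) : ℝ) * e' ≤ (N * c + 1) * e' :=
      mul_le_mul_of_nonneg_right hd' (Nat.cast_nonneg _)
    nlinarith
  by_contra hcon
  push Not at hcon
  have hδ : 0 < ∑ i, x i * (u i : ℝ) - c * e' := by linarith
  obtain ⟨N4, hN4⟩ := exists_nat_gt ((e' + ∑ i, (u i : ℝ)) / (∑ i, x i * (u i : ℝ) - c * e'))
  rw [div_lt_iff₀ hδ] at hN4
  obtain ⟨N, hN⟩ : ∃ N : ℕ, N = max (max N1 N2) (max N3 (max N4 1)) := ⟨_, rfl⟩
  have h1 := key N (by rw [hN]; exact (le_max_left _ _).trans (le_max_left _ _))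
    (by rw [hN]; exact (le_max_right _ _).trans (le_max_left _ _))
    (by rw [hN]; exact (le_max_left _ _).trans (le_max_right _ _))
    (by rw [hN]; exact (le_max_right _ _).trans ((le_max_right _ _).trans (le_max_right _ _)))
  have h2 : (N4 : ℝ) ≤ N := by
    have : N4 ≤ N := by rw [hN]; exact (le_max_left _ _).trans ((le_max_right _ _).trans (le_max_right _ _))
    exact_mod_cast this
  have h3 := mul_le_mul_of_nonneg_right h2 hδ.le
  linarith

end Pool.Agent.Q92.CH
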